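import Pool.Agent.Helper29.BL.GoalsF
import Pool.Agent.Helper29.BL.PS

/-!
# Packet GHN of project BL (MP_a41896_nt): heights on the nodal cubic
-/

namespace Pool.Agent.Helper86.BL

open WeierstrassCurve Height Height.AdmissibleAbsValues Polynomial
open scoped Polynomial.Bivariate
open Pool.Agent.Helper29.BL

noncomputable section

section near

variable {K : Type} [Field K] [NumberField K]

lemma logHeight_range {ι ι' : Type} [Fintype ι] [Fintype ι'] {x : ι → K} {y : ι' → K}
    (hx : x ≠ 0) (hy : y ≠ 0) (h : Set.range x = Set.range y) : logHeight x = logHeight y := by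
  rw [← PS_log_iSup hx, ← PS_log_iSup hy]
  congr 1
  funext v
  have h1 : (⨆ i, v (x i)) = ⨆ i, v (y i) := by
    have h2 : Set.range (fun i => v (x i)) = Set.range (fun i => v (y i)) := by
      have e1 : Set.range (fun i => v (x i)) = v '' Set.range x := by
        rw [← Set.range_comp]; rfl
      have e2 : Set.range (fun i => v (y i)) = v '' Set.range y := by
        rw [← Set.range_comp]; rfl
      rw [e1, e2, h]
    unfold iSup
    rw [h2]
  rw [h1]

lemma near_aux : ∃ C : ℝ, ∀ u : K, u ≠ 0 → u ≠ 1 →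
    |2 * logHeight₁ u - logHeight₁ (u / (u - 1) ^ 2)| ≤ C := by
  obtain ⟨C, hC⟩ := abs_logHeight_sym2_sub_le K
  refine ⟨C + (totalWeight K * Real.log 2 + logHeight₁ (2 : K)), fun u hu hu1 => ?_⟩
  have h1 := hC (a := u) (b := 1) (c := u⁻¹) (d := 1)
    (by intro h; simpa using congrFun h 1) (by intro h; simpa using congrFun h 1)
  rw [← logHeight₁_eq_logHeight, ← logHeight₁_eq_logHeight, logHeight₁_inv,
    mul_inv_cancel₀ hu] at h1
  simp only [mul_one, one_mul] at h1
  have h2 : logHeight ![1, u + u⁻¹, 1] = logHeight₁ (u + u⁻¹) := by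
    rw [logHeight₁_eq_logHeight]
    apply logHeight_range
    · intro h
      simpa using congrFun h 0
    · intro h
      simpa using congrFun h 1
    · simp only [Matrix.range_cons, Matrix.range_empty, Set.union_empty]
      ext t
      simp only [Set.mem_union, Set.mem_singleton_iff]
      tauto
  rw [h2] at h1
  have hu1' : u - 1 ≠ 0 := sub_ne_zero.2 hu1
  have h3 : (u / (u - 1) ^ 2)⁻¹ = u + u⁻¹ - 2 := by
    field_simp
    ring
  have h4 : logHeight₁ (u / (u - 1) ^ 2) = logHeight₁ (u + u⁻¹ - 2) := by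
    rw [← logHeight₁_inv, h3]
  have h5 := logHeight₁_sub_le (u + u⁻¹) (2 : K)
  have h6 := logHeight₁_add_le (u + u⁻¹ - 2) (2 : K)
  rw [sub_add_cancel] at h6
  rw [h4]
  obtain ⟨h7, h8⟩ := abs_le.1 h1
  rw [abs_le]
  constructor <;> linarith

end near

section places

variable {K : Type} [Field K] [NumberField K]

lemma pos_nonneg (t : ℝ) : 0 ≤ Real.posLog t := by
  unfold Real.posLog
  exact le_max_left _ _

lemma posLog_le_abs (t : ℝ) : Real.posLog t ≤ |Real.log t| := by
  unfold Real.posLog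
  exact max_le (abs_nonneg _) (le_abs_self _)

lemma log_le_posLog (t : ℝ) : Real.log t ≤ Real.posLog t := by
  unfold Real.posLog
  exact le_max_right _ _

lemma support_fin (w : K) :
    (Function.support fun v : nonarchAbsVal (K := K) => Real.posLog (v.val w)).Finite :=
  FS_posLog w

lemma posLog_le_h (w : K) {v : AbsoluteValue K ℝ}
    (hv : v ∈ archAbsVal (K := K) ∨ v ∈ nonarchAbsVal (K := K)) :
    Real.posLog (v w) ≤ logHeight₁ w := by
  rw [logHeight₁_eq]
  have h1 : 0 ≤ ((archAbsVal (K := K)).map fun v => Real.posLog (v w)).sum := by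
    refine Multiset.sum_nonneg fun x hx => ?_
    obtain ⟨v, -, rfl⟩ := Multiset.mem_map.1 hx
    exact pos_nonneg _
  have h2 : 0 ≤ ∑ᶠ v : nonarchAbsVal (K := K), Real.posLog (v.val w) :=
    finsum_nonneg fun _ => pos_nonneg _
  rcases hv with hv | hv
  · have h3 : Real.posLog (v w) ≤ ((archAbsVal (K := K)).map fun v => Real.posLog (v w)).sum := by
      refine Multiset.single_le_sum (fun x hx => ?_) _ (Multiset.mem_map_of_mem _ hv)
      obtain ⟨v, -, rfl⟩ := Multiset.mem_map.1 hx
      exact pos_nonneg _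
    linarith
  · have h3 : Real.posLog (v w) ≤ ∑ᶠ v : nonarchAbsVal (K := K), Real.posLog (v.val w) :=
      single_le_finsum (⟨v, hv⟩ : nonarchAbsVal (K := K)) (support_fin w) (fun _ => pos_nonneg _)
    linarith

lemma abs_log_le_h {w : K} {v : AbsoluteValue K ℝ}
    (hv : v ∈ archAbsVal (K := K) ∨ v ∈ nonarchAbsVal (K := K)) :
    |Real.log (v w)| ≤ logHeight₁ w := by
  rw [abs_le]
  constructor
  · have h1 := posLog_le_h w⁻¹ hv
    have h2 := log_le_posLog (v w⁻¹)
    rw [logHeight₁_inv] at h1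
    rw [map_inv₀, Real.log_inv] at h2
    rw [map_inv₀] at h1
    linarith
  · exact (log_le_posLog _).trans (posLog_le_h w hv)

lemma h_le {w : K} {F : Finset (nonarchAbsVal (K := K))} {t : ℝ}
    (hF : ∀ v : nonarchAbsVal (K := K), v ∉ F → v.val w = 1)
    (h1 : ∀ v ∈ archAbsVal (K := K), Real.posLog (v w) ≤ t)
    (h2 : ∀ v ∈ F, Real.posLog (v.val w) ≤ t) :
    logHeight₁ w ≤ ((Multiset.card (archAbsVal (K := K)) : ℝ) + F.card) * t := by
  rw [logHeight₁_eq]
  have h3 : ((archAbsVal (K := K)).map fun v => Real.posLog (v w)).sum ≤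
      (Multiset.card (archAbsVal (K := K)) : ℝ) * t := by
    have h4 := Multiset.sum_le_card_nsmul ((archAbsVal (K := K)).map fun v => Real.posLog (v w)) t
      (fun x hx => by
        obtain ⟨v, hv, rfl⟩ := Multiset.mem_map.1 hx
        exact h1 v hv)
    rwa [Multiset.card_map, nsmul_eq_mul] at h4
  have h5 : ∑ᶠ v : nonarchAbsVal (K := K), Real.posLog (v.val w) =
      ∑ v ∈ F, Real.posLog (v.val w) := by
    apply finsum_eq_sum_of_support_subset
    intro v hv
    by_contra h6
    apply hv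
    show Real.posLog (v.val w) = 0
    rw [hF v h6]
    simp [Real.posLog]
  have h6 : ∑ v ∈ F, Real.posLog (v.val w) ≤ (F.card : ℝ) * t := by
    rw [← nsmul_eq_mul]
    exact Finset.sum_le_card_nsmul F _ t h2
  rw [h5]
  linarith

end places

/-- Codes of integers. -/
def code (J : ℕ) (i : ℤ) : Fin (2 * J + 1) := ⟨(i + J).toNat % (2 * J + 1), Nat.mod_lt _ (by omega)⟩

lemma code_inj {J : ℕ} {i i' : ℤ} (h1 : -(J : ℤ) ≤ i) (h2 : i ≤ J) (h1' : -(J : ℤ) ≤ i')
    (h2' : i' ≤ J) (h : code J i = code J i') : i = i' := by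
  have h3 := congrArg Fin.val h
  simp only [code] at h3
  rw [Nat.mod_eq_of_lt (by omega), Nat.mod_eq_of_lt (by omega)] at h3
  omega

theorem ghn_of : NISO → GHN := by
  classical
  intro hNISO K _ _ _ Γ hΓ
  obtain ⟨ψ, hψ⟩ := hNISO K
  set φ : (nodal K).Point → K := fun P => ((ψ P).toMul : K) with hφ
  have φ0 : ∀ P, φ P ≠ 0 := fun P => Units.ne_zero _
  have φadd : ∀ P Q, φ (P + Q) = φ P * φ Q := by
    intro P Q
    simp only [hφ, map_add, toMul_add, Units.val_mul]
  have φneg : ∀ P, φ (-P) = (φ P)⁻¹ := by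
    intro P
    simp only [hφ, map_neg, toMul_neg, Units.val_inv_eq_inv_val]
  have φzero : φ 0 = 1 := by
    simp only [hφ, map_zero, toMul_zero, Units.val_one]
  have φsub : ∀ P Q, φ (P - Q) = φ P / φ Q := by
    intro P Q
    rw [sub_eq_add_neg, φadd, φneg, div_eq_mul_inv]
  have φnsmul : ∀ (n : ℕ) P, φ (n • P) = φ P ^ n := by
    intro n P
    simp only [hφ, map_nsmul, toMul_nsmul, Units.val_pow_eq_pow_val]
  obtain ⟨C, hC⟩ := near_aux (K := K)
  refine ⟨fun P => 2 * logHeight₁ (φ P), |C|, ⟨le_rfl, ?_, ?_, ?_, ?_, ?_⟩, ?_⟩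
  · intro P
    exact mul_nonneg zero_le_two (zero_le_logHeight₁ _)
  · intro P
    rw [φneg, logHeight₁_inv]
  · intro P Q
    rw [φadd]
    have h1 := logHeight₁_mul_le (φ P) (φ Q)
    have hP := zero_le_logHeight₁ (φ P)
    have hQ := zero_le_logHeight₁ (φ Q)
    rw [Real.sqrt_le_left (by positivity)]
    have h2 : 0 ≤ √(2 * logHeight₁ (φ P)) * √(2 * logHeight₁ (φ Q)) := by positivity
    have h3 := Real.sq_sqrt (mul_nonneg zero_le_two hP)
    have h4 := Real.sq_sqrt (mul_nonneg zero_le_two hQ)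
    nlinarith
  · intro n P
    rw [φnsmul, logHeight₁_pow, pow_one]
    ring
  · intro P
    by_cases hP : P = 0
    · subst hP
      rw [φzero, logHeight₁_one]
      have : hx (0 : (nodal K).Point) = 0 := by
        unfold hx
        rw [xc_zero, logHeight₁_zero]
      rw [this]
      simp
    · obtain ⟨h1, h2⟩ := hψ P hP
      unfold hx
      rw [h2]
      exact (hC (φ P) (φ0 P) h1).trans (le_abs_self C)
  -- packing
  intro κ hκ
  obtain ⟨G₀, hG₀⟩ := hΓ
  have hfin : (⋃ g ∈ G₀, {v : nonarchAbsVal (K := K) | v.val (φ g) ≠ 1}).Finite :=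
    Set.Finite.biUnion G₀.finite_toSet fun g _ => hasFiniteMulSupport (K := K) (φ0 g)
  set F : Finset (nonarchAbsVal (K := K)) := hfin.toFinset with hF
  have hF1 : ∀ P ∈ Γ, ∀ v : nonarchAbsVal (K := K), v ∉ F → v.val (φ P) = 1 := by
    intro P hP v hv
    rw [← hG₀] at hP
    refine AddSubgroup.closure_induction (p := fun P _ => v.val (φ P) = 1) ?_ ?_ ?_ ?_ hP
    · intro g hg
      by_contra h
      apply hv
      rw [hF, Set.Finite.mem_toFinset]
      exact Set.mem_biUnion hg h
    · rw [φzero, map_one]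
    · intro P Q _ _ h1 h2
      rw [φadd, map_mul, h1, h2, one_mul]
    · intro P _ h1
      rw [φneg, map_inv₀, h1, inv_one]
  set V : Finset (AbsoluteValue K ℝ) := (archAbsVal (K := K)).toFinset ∪ F.image Subtype.val with hV
  have hVmem : ∀ v ∈ V, v ∈ archAbsVal (K := K) ∨ v ∈ nonarchAbsVal (K := K) := by
    intro v hv
    rcases Finset.mem_union.1 hv with h | h
    · exact Or.inl (Multiset.mem_toFinset.1 h)
    · obtain ⟨u, -, rfl⟩ := Finset.mem_image.1 h
      exact Or.inr u.2
  set M : ℝ := (Multiset.card (archAbsVal (K := K)) : ℝ) + F.card + 1 with hM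
  have hM0 : 0 < M := by positivity
  set J : ℕ := ⌈κ ^ 2 * M⌉₊ + 1 with hJ
  set e := Fintype.equivFin (V → Fin (2 * J + 1)) with he
  refine ⟨Fintype.card (V → Fin (2 * J + 1)), ?_⟩
  intro B hB ρ hρ hd
  rcases B.eq_empty_or_nonempty with rfl | ⟨z₀, hz₀⟩
  · exact ⟨fun _ => e (fun _ => 0), by simp⟩
  set η : ℝ := ρ ^ 2 / (2 * M) with hη
  have hη0 : 0 < η := by positivity
  set fl : (nodal K).Point → V → ℤ := fun z v => ⌊Real.log (v.1 (φ (z - z₀))) / η⌋ with hfl
  refine ⟨fun z => e (fun v => code J (fl z v)), ?_⟩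
  -- the bound of the codes
  have hbound : ∀ z ∈ B, ∀ v : V, -(J : ℤ) ≤ fl z v ∧ fl z v ≤ J := by
    intro z hz v
    have h1 := hd z hz z₀ hz₀
    have h2 : 2 * logHeight₁ (φ (z - z₀)) ≤ (κ * ρ) ^ 2 := by
      rw [Real.sqrt_le_left (by positivity)] at h1
      exact h1
    have h3 : |Real.log (v.1 (φ (z - z₀)))| ≤ logHeight₁ (φ (z - z₀)) :=
      abs_log_le_h (hVmem v.1 v.2)
    have h4 : |Real.log (v.1 (φ (z - z₀))) / η| ≤ κ ^ 2 * M := by
      rw [abs_div, abs_of_pos hη0, div_le_iff₀ hη0, hη]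
      have : κ ^ 2 * M * (ρ ^ 2 / (2 * M)) = (κ * ρ) ^ 2 / 2 := by
        field_simp
      rw [this]
      linarith
    have h5 := Nat.le_ceil (κ ^ 2 * M)
    obtain ⟨h6, h7⟩ := abs_le.1 h4
    constructor
    · rw [hfl, Int.le_floor, hJ]
      push_cast
      linarith
    · have h8 : (fl z v : ℝ) ≤ J := by
        have h9 := Int.floor_le (Real.log (v.1 (φ (z - z₀))) / η)
        rw [hJ]
        push_cast
        show ((⌊Real.log (v.1 (φ (z - z₀))) / η⌋ : ℤ) : ℝ) ≤ _
        linarith
      exact_mod_cast h8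
  intro z hz z' hz' hff
  have h1 : (fun v => code J (fl z v)) = fun v => code J (fl z' v) := e.injective hff
  have h2 : ∀ v : V, fl z v = fl z' v := by
    intro v
    exact code_inj (hbound z hz v).1 (hbound z hz v).2 (hbound z' hz' v).1 (hbound z' hz' v).2
      (congrFun h1 v)
  have h3 : ∀ v ∈ V, Real.posLog (v (φ (z - z'))) ≤ η := by
    intro v hv
    have h4 := Int.abs_sub_lt_one_of_floor_eq_floor (h2 ⟨v, hv⟩)
    have h5 : φ (z - z') = φ (z - z₀) / φ (z' - z₀) := by
      rw [← φsub]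
      congr 1
      abel
    have hv0 : ∀ P, v (φ P) ≠ 0 := fun P => (map_ne_zero v).2 (φ0 P)
    have h6 : Real.log (v (φ (z - z'))) =
        Real.log (v (φ (z - z₀))) - Real.log (v (φ (z' - z₀))) := by
      rw [h5, map_div₀, Real.log_div (hv0 _) (hv0 _)]
    refine (posLog_le_abs _).trans ?_
    rw [h6]
    rw [← sub_div, abs_div, abs_of_pos hη0, div_lt_one hη0] at h4
    exact h4.le
  have h4 : logHeight₁ (φ (z - z')) ≤
      ((Multiset.card (archAbsVal (K := K)) : ℝ) + F.card) * η := by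
    refine h_le (hF1 _ (sub_mem (hB z hz) (hB z' hz'))) ?_ ?_
    · intro v hv
      exact h3 v (Finset.mem_union_left _ (Multiset.mem_toFinset.2 hv))
    · intro v hv
      exact h3 v.1 (Finset.mem_union_right _ (Finset.mem_image_of_mem _ hv))
  rw [Real.sqrt_le_left hρ.le]
  have h5 : ((Multiset.card (archAbsVal (K := K)) : ℝ) + F.card) * η ≤ M * η :=
    mul_le_mul_of_nonneg_right (by rw [hM]; linarith) hη0.le
  have h6 : M * η = ρ ^ 2 / 2 := by
    rw [hη]
    field_simp
  linarith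

end

end Pool.Agent.Helper86.BL
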